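import Mathlib

/-!
# Power-bias fixed point: the distribution function in the logarithmic variable and its inverse
-/

open MeasureTheory Set Filter Topology
open scoped ENNReal

namespace Pool.Agent.V1185.PB

/-- `L(s) = E exp(w min(0, s - log Y))` -/
noncomputable def LL (w : ℝ) (β : Measure ℝ) (s : ℝ) : ℝ :=
  ∫ y, Real.exp (w * min 0 (s - Real.log y)) ∂β

theorem abs_exp_sub_exp_le' {x y : ℝ} (hx : x ≤ 0) (hy : y ≤ 0) :
    |Real.exp x - Real.exp y| ≤ |x - y| := by
  wlog h : x ≤ y generalizing x y
  · rw [abs_sub_comm, abs_sub_comm x y]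
    exact this hy hx (le_of_not_ge h)
  rw [abs_sub_comm, abs_sub_comm x y, abs_of_nonneg (sub_nonneg.2 (Real.exp_le_exp.2 h)),
    abs_of_nonneg (sub_nonneg.2 h)]
  have h1 : Real.exp x = Real.exp y * Real.exp (x - y) := by rw [← Real.exp_add]; ring_nf
  have h2 : x - y + 1 ≤ Real.exp (x - y) := Real.add_one_le_exp _
  have h3 : Real.exp y ≤ 1 := Real.exp_le_one_iff.2 hy
  have h4 : 0 < Real.exp y := Real.exp_pos y
  rw [h1]
  nlinarith

theorem kernel_lip {w : ℝ} (hw : 0 ≤ w) (a b : ℝ) :
    |Real.exp (w * min 0 a) - Real.exp (w * min 0 b)| ≤ w * |a - b| := by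
  have h1 : w * min 0 a ≤ 0 := mul_nonpos_of_nonneg_of_nonpos hw (min_le_left _ _)
  have h2 : w * min 0 b ≤ 0 := mul_nonpos_of_nonneg_of_nonpos hw (min_le_left _ _)
  refine (abs_exp_sub_exp_le' h1 h2).trans ?_
  rw [← mul_sub, abs_mul, abs_of_nonneg hw]
  have := abs_min_sub_min_le_max 0 a 0 b
  rw [sub_zero, abs_zero, max_eq_right (abs_nonneg _)] at this
  exact mul_le_mul_of_nonneg_left this hw

variable {w : ℝ} {β : Measure ℝ}

theorem kernel_le_one (hw : 0 ≤ w) (a : ℝ) : Real.exp (w * min 0 a) ≤ 1 :=
  Real.exp_le_one_iff.2 (mul_nonpos_of_nonneg_of_nonpos hw (min_le_left _ _))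

theorem kernel_meas (w s : ℝ) : Measurable fun y : ℝ => Real.exp (w * min 0 (s - Real.log y)) := by
  fun_prop

theorem kernel_int [IsProbabilityMeasure β] (hw : 0 ≤ w) (s : ℝ) :
    Integrable (fun y : ℝ => Real.exp (w * min 0 (s - Real.log y))) β := by
  apply Integrable.of_bound (kernel_meas w s).aestronglyMeasurable 1
  refine Eventually.of_forall fun y => ?_
  rw [Real.norm_eq_abs, abs_of_pos (Real.exp_pos _)]
  exact kernel_le_one hw _

/-- the gap -/
noncomputable def GG (w : ℝ) (β : Measure ℝ) (s : ℝ) : ℝ :=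
  ∫ y, (if s < Real.log y then Real.exp (w * (s - Real.log y)) else 0) ∂β

theorem gap_meas (w s : ℝ) : Measurable fun y : ℝ =>
    (if s < Real.log y then Real.exp (w * (s - Real.log y)) else 0) :=
  Measurable.ite (measurableSet_lt measurable_const Real.measurable_log) (by fun_prop)
    measurable_const

theorem gap_int [IsProbabilityMeasure β] (hw : 0 ≤ w) (s : ℝ) :
    Integrable (fun y : ℝ => (if s < Real.log y then Real.exp (w * (s - Real.log y)) else 0)) β := by
  apply Integrable.of_bound (gap_meas w s).aestronglyMeasurable 1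
  refine Eventually.of_forall fun y => ?_
  split_ifs with h
  · rw [Real.norm_eq_abs, abs_of_pos (Real.exp_pos _)]
    exact Real.exp_le_one_iff.2 (mul_nonpos_of_nonneg_of_nonpos hw (by linarith))
  · simp

theorem LL_eq [IsProbabilityMeasure β] (hw : 0 ≤ w) (hpos : ∀ᵐ y ∂β, 0 < y) (s : ℝ) :
    LL w β s = β.real (Iic (Real.exp s)) + GG w β s := by
  have h1 : β.real (Iic (Real.exp s)) = ∫ y, (Iic (Real.exp s)).indicator (fun _ => (1:ℝ)) y ∂β :=
    (integral_indicator_one measurableSet_Iic).symm
  rw [h1, GG, ← integral_add ((integrable_const (1:ℝ)).indicator measurableSet_Iic) (gap_int hw s)]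
  apply integral_congr_ae
  filter_upwards [hpos] with y hy
  by_cases h : s < Real.log y
  · have h2 : y ∉ Iic (Real.exp s) := by
      rw [mem_Iic, not_le]; exact (Real.lt_log_iff_exp_lt hy).1 h
    rw [indicator_of_notMem h2, if_pos h, zero_add, min_eq_right (by linarith)]
  · have h2 : y ∈ Iic (Real.exp s) := by
      rw [mem_Iic]; exact (Real.log_le_iff_le_exp hy).1 (not_lt.1 h)
    rw [indicator_of_mem h2, if_neg h, add_zero, min_eq_left (by linarith [not_lt.1 h])]
    simp

theorem LL_hasDerivAt [IsProbabilityMeasure β] (hw : 0 ≤ w) (hpos : ∀ᵐ y ∂β, 0 < y)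
    (hat : ∀ x, β {x} = 0) (s : ℝ) : HasDerivAt (LL w β) (w * GG w β s) s := by
  have hne : ∀ᵐ y ∂β, Real.log y ≠ s := by
    have h1 : ∀ᵐ y ∂β, y ≠ Real.exp s := by
      rw [ae_iff]
      convert hat (Real.exp s) using 2
      ext y; simp
    filter_upwards [h1, hpos] with y h1 h2 h3
    exact h1 (by rw [← h3, Real.exp_log h2])
  have h := (hasDerivAt_integral_of_dominated_loc_of_lip (μ := β) (𝕜 := ℝ) (E := ℝ)
    (F := fun s y => Real.exp (w * min 0 (s - Real.log y))) (x₀ := s) (s := univ)
    (bound := fun _ => w)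
    (F' := fun y => w * (if s < Real.log y then Real.exp (w * (s - Real.log y)) else 0))
    univ_mem (Eventually.of_forall fun s => (kernel_meas w s).aestronglyMeasurable)
    (kernel_int hw s) ((gap_meas w s).const_mul w).aestronglyMeasurable
    (Eventually.of_forall fun y => by
      apply LipschitzOnWith.of_dist_le_mul
      intro a _ b _
      rw [Real.dist_eq, Real.dist_eq]
      have := kernel_lip hw (a - Real.log y) (b - Real.log y)
      rw [sub_sub_sub_cancel_right] at this
      simpa [abs_of_nonneg hw] using this) (integrable_const w) ?_).2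
  · rw [integral_const_mul] at h
    exact h
  · filter_upwards [hne] with y hy
    rcases lt_or_gt_of_ne hy with h1 | h1
    · rw [if_neg (not_lt.2 h1.le), mul_zero]
      have : (fun s : ℝ => Real.exp (w * min 0 (s - Real.log y))) =ᶠ[𝓝 s] fun _ => (1:ℝ) := by
        filter_upwards [lt_mem_nhds h1] with t ht
        rw [min_eq_left (by linarith)]; simp
      exact (hasDerivAt_const s (1:ℝ)).congr_of_eventuallyEq this
    · rw [if_pos h1]
      have : (fun s : ℝ => Real.exp (w * min 0 (s - Real.log y))) =ᶠ[𝓝 s]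
          fun t => Real.exp (w * (t - Real.log y)) := by
        filter_upwards [gt_mem_nhds h1] with t ht
        rw [min_eq_right (by linarith)]
      refine HasDerivAt.congr_of_eventuallyEq ?_ this
      have h2 := (((hasDerivAt_id s).sub_const (Real.log y)).const_mul w).exp
      refine h2.congr_deriv ?_
      simp only [id]; ring

theorem GG_nonneg (s : ℝ) : 0 ≤ GG w β s := by
  apply integral_nonneg
  intro y
  simp only [Pi.zero_apply]
  split_ifs
  · exact (Real.exp_pos _).le
  · exact le_rfl

theorem GG_pos [IsProbabilityMeasure β] (hw : 0 ≤ w) (s : ℝ)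
    (h : LL w β s < 1) : 0 < GG w β s := by
  apply lt_of_le_of_ne (GG_nonneg s)
  intro h0
  have hnn : 0 ≤ᵐ[β] fun y : ℝ => (if s < Real.log y then Real.exp (w * (s - Real.log y)) else 0) := by
    refine Eventually.of_forall fun y => ?_
    simp only [Pi.zero_apply]
    split_ifs
    · exact (Real.exp_pos _).le
    · exact le_rfl
  have h1 := (integral_eq_zero_iff_of_nonneg_ae hnn (gap_int hw s)).1 h0.symm
  have h2 : LL w β s = 1 := by
    have : LL w β s = ∫ y, (1:ℝ) ∂β := by
      apply integral_congr_ae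
      filter_upwards [h1] with y hy
      by_cases h : s < Real.log y
      · rw [if_pos h] at hy
        exact absurd hy (Real.exp_pos _).ne'
      · rw [min_eq_left (by linarith [not_lt.1 h])]; simp
    rw [this]; simp
  linarith

theorem LL_pos [IsProbabilityMeasure β] (hw : 0 ≤ w) (s : ℝ) : 0 < LL w β s := by
  rw [LL, integral_pos_iff_support_of_nonneg (fun y => (Real.exp_pos _).le) (kernel_int hw s)]
  have : (Function.support fun y : ℝ => Real.exp (w * min 0 (s - Real.log y))) = univ := by
    ext y; simp [Real.exp_ne_zero]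
  rw [this]; simp

theorem LL_tendsto_top [IsProbabilityMeasure β] (hw : 0 ≤ w) :
    Tendsto (LL w β) atTop (𝓝 1) := by
  have h1 : (1:ℝ) = ∫ y, (1:ℝ) ∂β := by simp
  rw [h1]
  apply tendsto_integral_filter_of_dominated_convergence (fun _ => (1:ℝ))
  · exact Eventually.of_forall fun s => (kernel_meas w s).aestronglyMeasurable
  · refine Eventually.of_forall fun s => Eventually.of_forall fun y => ?_
    rw [Real.norm_eq_abs, abs_of_pos (Real.exp_pos _)]
    exact kernel_le_one hw _
  · exact integrable_const _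
  · refine Eventually.of_forall fun y => ?_
    apply tendsto_const_nhds.congr'
    filter_upwards [eventually_ge_atTop (Real.log y)] with s hs
    rw [min_eq_left (by linarith)]; simp

theorem LL_tendsto_bot [IsProbabilityMeasure β] (hw : 0 < w) :
    Tendsto (LL w β) atBot (𝓝 0) := by
  have h1 : (0:ℝ) = ∫ y, (0:ℝ) ∂β := by simp
  rw [h1]
  apply tendsto_integral_filter_of_dominated_convergence (fun _ => (1:ℝ))
  · exact Eventually.of_forall fun s => (kernel_meas w s).aestronglyMeasurable
  · refine Eventually.of_forall fun s => Eventually.of_forall fun y => ?_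
    rw [Real.norm_eq_abs, abs_of_pos (Real.exp_pos _)]
    exact kernel_le_one hw.le _
  · exact integrable_const _
  · refine Eventually.of_forall fun y => ?_
    have : Tendsto (fun s : ℝ => Real.exp (w * (s - Real.log y))) atBot (𝓝 0) := by
      apply Real.tendsto_exp_atBot.comp
      apply Tendsto.const_mul_atBot hw
      exact tendsto_atBot_add_const_right _ _ tendsto_id
    apply this.congr'
    filter_upwards [eventually_le_atBot (Real.log y)] with s hs
    rw [min_eq_right (by linarith)]

theorem LL_mono [IsProbabilityMeasure β] (hw : 0 ≤ w) (hpos : ∀ᵐ y ∂β, 0 < y)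
    (hat : ∀ x, β {x} = 0) : Monotone (LL w β) := by
  apply monotone_of_deriv_nonneg
  · exact fun s => (LL_hasDerivAt hw hpos hat s).differentiableAt
  · intro s
    rw [(LL_hasDerivAt hw hpos hat s).deriv]
    exact mul_nonneg hw (GG_nonneg s)

/-- the inverse function (quantile function in the logarithmic variable) -/
theorem exists_inv [IsProbabilityMeasure β] (hw : 0 < w) (hpos : ∀ᵐ y ∂β, 0 < y)
    (hat : ∀ x, β {x} = 0) : ∃ g : ℝ → ℝ, (∀ u ∈ Ioo (0:ℝ) 1, LL w β (g u) = u) ∧
      StrictMonoOn g (Ioo 0 1) ∧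
      (∀ u ∈ Ioo (0:ℝ) 1, HasDerivAt g (1 / (w * GG w β (g u))) u) ∧
      (∀ u ∈ Ioo (0:ℝ) 1, ∀ s, g u ≤ s ↔ u ≤ LL w β s) := by
  have hder := LL_hasDerivAt (w := w) hw.le hpos hat
  have hmono := LL_mono (w := w) hw.le hpos hat
  have hcont : Continuous (LL w β) := continuous_iff_continuousAt.2 fun s => (hder s).continuousAt
  have hex : ∀ u ∈ Ioo (0:ℝ) 1, ∃ s, LL w β s = u := by
    intro u hu
    have h1 : ∃ a, LL w β a ≤ u :=
      (((LL_tendsto_bot hw).eventually_lt_const hu.1).exists).imp fun a ha => ha.le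
    have h2 : ∃ b, u ≤ LL w β b :=
      (((LL_tendsto_top hw.le).eventually_const_lt hu.2).exists).imp fun a ha => ha.le
    exact mem_range_of_exists_le_of_exists_ge hcont h1 h2
  -- strictness
  have hstrict : ∀ s t, s < t → LL w β s < 1 → LL w β s < LL w β t := by
    intro s t hst h1
    apply lt_of_le_of_ne (hmono hst.le)
    intro heq
    have h2 : ∀ x ∈ Icc s t, LL w β x = LL w β s := fun x hx =>
      le_antisymm (by rw [heq]; exact hmono hx.2) (hmono hx.1)
    obtain ⟨x, hx1, hx2⟩ := exists_between hst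
    have h3 : HasDerivAt (LL w β) 0 x := by
      have : LL w β =ᶠ[𝓝 x] fun _ => LL w β s := by
        filter_upwards [Icc_mem_nhds hx1 hx2] with y hy using h2 y hy
      exact (hasDerivAt_const x _).congr_of_eventuallyEq this
    have h4 := (hder x).unique h3
    have h5 := GG_pos (w := w) (β := β) hw.le x (by rw [h2 x ⟨hx1.le, hx2.le⟩]; exact h1)
    exact absurd h4 (by positivity)
  choose! g hg using hex
  have hiff : ∀ u ∈ Ioo (0:ℝ) 1, ∀ s, g u ≤ s ↔ u ≤ LL w β s := by
    intro u hu s
    constructor
    · intro h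
      calc u = LL w β (g u) := (hg u hu).symm
        _ ≤ _ := hmono h
    · intro h
      by_contra h1
      push Not at h1
      have h2 := hmono h1.le
      rw [hg u hu] at h2
      have h3 : LL w β s = u := le_antisymm h2 h
      have h4 := hstrict s (g u) h1 (by rw [h3]; exact hu.2)
      rw [hg u hu, h3] at h4
      exact lt_irrefl _ h4
  have hiff' : ∀ u ∈ Ioo (0:ℝ) 1, ∀ s, s < g u ↔ LL w β s < u := by
    intro u hu s
    rw [← not_le, ← not_le, hiff u hu s]
  have hgm : StrictMonoOn g (Ioo 0 1) := by
    intro u hu v hv huv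
    rw [hiff' v hv, hg u hu]
    exact huv
  refine ⟨g, hg, hgm, ?_, hiff⟩
  intro u hu
  have hgc : ContinuousAt g u := by
    rw [Metric.continuousAt_iff']
    intro ε hε
    have h1 : LL w β (g u - ε) < u := (hiff' u hu _).1 (by linarith)
    have h2 : u < LL w β (g u + ε) := by
      have := hstrict (g u) (g u + ε) (by linarith) (by rw [hg u hu]; exact hu.2)
      rwa [hg u hu] at this
    filter_upwards [isOpen_Ioo.mem_nhds hu, lt_mem_nhds h1, gt_mem_nhds h2] with v hv h3 h4
    rw [Real.dist_eq, abs_lt]
    constructor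
    · have := (hiff' v hv (g u - ε)).2 h3
      linarith
    · by_contra h5
      push Not at h5
      have h6 : g u + ε ≤ g v := by linarith
      have h7 := hmono h6
      rw [hg v hv] at h7
      linarith
  have hG := GG_pos (w := w) (β := β) hw.le (g u) (by rw [hg u hu]; exact hu.2)
  have := HasDerivAt.of_local_left_inverse hgc (hder (g u)) (by positivity) (by
    filter_upwards [isOpen_Ioo.mem_nhds hu] with v hv using hg v hv)
  rwa [one_div]

end Pool.Agent.V1185.PB
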