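import Mathlib

/-!
# Power-bias fixed point: comparison of two quantile functions
-/

open MeasureTheory Set Filter Topology

namespace Pool.Agent.V1185.PB

theorem abs_arctan_le (x : ℝ) : |Real.arctan x| ≤ Real.pi / 2 :=
  abs_le.2 ⟨(Real.neg_pi_div_two_lt_arctan x).le, (Real.arctan_lt_pi_div_two x).le⟩

/-- the tilted density `∑ ψ_k e^{k g(v)}/m_k` -/
noncomputable def AA (ψ : ℕ → ℝ) (g : ℝ → ℝ) (m : ℕ → ℝ) (v : ℝ) : ℝ :=
  ∑' k, ψ k * (Real.exp (k * g v) / m k)

/-- the gap `u - ∫_0^u A` -/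
noncomputable def DD (ψ : ℕ → ℝ) (g : ℝ → ℝ) (m : ℕ → ℝ) (u : ℝ) : ℝ :=
  u - ∫ v in (0:ℝ)..u, AA ψ g m v

structure Quant (w : ℝ) (ψ : ℕ → ℝ) (g : ℝ → ℝ) (m : ℕ → ℝ) : Prop where
  mono : MonotoneOn g (Ioo 0 1)
  cont : ContinuousOn g (Ioo 0 1)
  mpos : ∀ k, 0 < ψ k → 0 < m k
  int : ∀ k, 0 < ψ k → IntegrableOn (fun u => Real.exp (k * g u)) (Ioo 0 1)
  mval : ∀ k, 0 < ψ k → ∫ u in Ioo 0 1, Real.exp (k * g u) = m k
  summ : ∀ u ∈ Ioo (0:ℝ) 1, Summable (fun k => ψ k * (Real.exp (k * g u) / m k))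
  dpos : ∀ u ∈ Ioo (0:ℝ) 1, 0 < DD ψ g m u
  der : ∀ u ∈ Ioo (0:ℝ) 1, HasDerivAt g (1 / (w * DD ψ g m u)) u

variable {w : ℝ} {ψ : ℕ → ℝ} {g : ℝ → ℝ} {m : ℕ → ℝ}

theorem Quant.intk (hq : Quant w ψ g m) (hψ : ∀ k, 0 ≤ ψ k) (k : ℕ) :
    Integrable (fun u => ψ k * (Real.exp (k * g u) / m k)) (volume.restrict (Ioo 0 1)) := by
  rcases (hψ k).lt_or_eq with h | h
  · exact ((hq.int k h).div_const _).const_mul _
  · simp [← h]

theorem Quant.intkval (hq : Quant w ψ g m) (hψ : ∀ k, 0 ≤ ψ k) (k : ℕ) :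
    ∫ u in Ioo 0 1, ψ k * (Real.exp (k * g u) / m k) = ψ k := by
  rcases (hψ k).lt_or_eq with h | h
  · rw [integral_const_mul, integral_div, hq.mval k h, div_self (hq.mpos k h).ne', mul_one]
  · simp [← h]

theorem Quant.nonnegk (hq : Quant w ψ g m) (hψ : ∀ k, 0 ≤ ψ k) (k : ℕ) (u : ℝ) :
    0 ≤ ψ k * (Real.exp (k * g u) / m k) := by
  rcases (hψ k).lt_or_eq with h | h
  · have := hq.mpos k h
    positivity
  · simp [← h]

theorem Quant.hasSumA (hq : Quant w ψ g m) (hψ : ∀ k, 0 ≤ ψ k) (hs : HasSum ψ 1) :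
    HasSum (fun k => ∫ u in Ioo 0 1, ψ k * (Real.exp (k * g u) / m k))
      (∫ u in Ioo 0 1, AA ψ g m u) := by
  apply hasSum_integral_of_summable_integral_norm
  · exact fun k => hq.intk hψ k
  · have : (fun k => ∫ u in Ioo 0 1, ‖ψ k * (Real.exp (k * g u) / m k)‖) = ψ := by
      funext k
      refine Eq.trans ?_ (hq.intkval hψ k)
      refine integral_congr_ae (Eventually.of_forall fun u => ?_)
      simp only
      rw [Real.norm_eq_abs, abs_of_nonneg (hq.nonnegk hψ k u)]
    rw [this]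
    exact hs.summable

theorem Quant.intA1 (hq : Quant w ψ g m) (hψ : ∀ k, 0 ≤ ψ k) (hs : HasSum ψ 1) :
    ∫ u in Ioo 0 1, AA ψ g m u = 1 := by
  have h1 := hq.hasSumA hψ hs
  have h2 : (fun k => ∫ u in Ioo 0 1, ψ k * (Real.exp (k * g u) / m k)) = ψ := by
    funext k; exact hq.intkval hψ k
  rw [h2] at h1
  exact h1.unique hs

theorem Quant.integrableA (hq : Quant w ψ g m) (hψ : ∀ k, 0 ≤ ψ k) (hs : HasSum ψ 1) :
    IntegrableOn (AA ψ g m) (Ioo 0 1) := by
  by_contra h
  have := hq.intA1 hψ hs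
  rw [integral_undef h] at this
  exact zero_ne_one this

theorem Quant.contA (hq : Quant w ψ g m) (hψ : ∀ k, 0 ≤ ψ k) :
    ContinuousOn (AA ψ g m) (Ioo 0 1) := by
  intro u hu
  obtain ⟨v, hv1, hv2⟩ := exists_between hu.2
  have hv : v ∈ Ioo (0:ℝ) 1 := ⟨hu.1.trans hv1, hv2⟩
  have hc : ContinuousOn (AA ψ g m) (Ioo 0 v) := by
    apply continuousOn_tsum (u := fun k => ψ k * (Real.exp (k * g v) / m k))
    · intro k
      have hg : ContinuousOn g (Ioo 0 v) := hq.cont.mono (Ioo_subset_Ioo_right hv2.le)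
      exact continuousOn_const.mul (((continuousOn_const.mul hg).rexp).div_const _)
    · exact hq.summ v hv
    · intro k x hx
      rw [Real.norm_eq_abs, abs_of_nonneg (hq.nonnegk hψ k x)]
      rcases (hψ k).lt_or_eq with h | h
      · have hm := hq.mpos k h
        have hgx : g x ≤ g v := hq.mono ⟨hx.1, hx.2.trans hv2⟩ hv hx.2.le
        gcongr
      · simp [← h]
  exact (hc.continuousAt (Ioo_mem_nhds hu.1 hv1)).continuousWithinAt

theorem intervalIntegrable_of {f : ℝ → ℝ} (h : IntegrableOn f (Ioo 0 1)) {a b : ℝ}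
    (ha : a ∈ Icc (0:ℝ) 1) (hb : b ∈ Icc (0:ℝ) 1) : IntervalIntegrable f volume a b := by
  have h01 : IntervalIntegrable f volume 0 1 := by
    rw [intervalIntegrable_iff_integrableOn_Ioo_of_le zero_le_one]
    exact h
  apply h01.mono_set
  rw [uIcc_of_le zero_le_one]
  exact uIcc_subset_Icc ha hb

theorem hasDerivAt_prim {f : ℝ → ℝ} (h : IntegrableOn f (Ioo 0 1)) (hc : ContinuousOn f (Ioo 0 1))
    {u : ℝ} (hu : u ∈ Ioo (0:ℝ) 1) : HasDerivAt (fun x => ∫ v in (0:ℝ)..x, f v) (f u) u := by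
  apply intervalIntegral.integral_hasDerivAt_right
  · exact intervalIntegrable_of h ⟨le_rfl, zero_le_one⟩ (Ioo_subset_Icc_self hu)
  · exact hc.stronglyMeasurableAtFilter isOpen_Ioo u hu
  · exact hc.continuousAt (isOpen_Ioo.mem_nhds hu)

theorem tendsto_prim_zero {f : ℝ → ℝ} (h : IntegrableOn f (Ioo 0 1)) :
    Tendsto (fun x => ∫ v in (0:ℝ)..x, f v) (𝓝[>] 0) (𝓝 0) := by
  have h01 : IntervalIntegrable f volume 0 1 := intervalIntegrable_of h (by simp) (by simp)
  have hc := intervalIntegral.continuousOn_primitive_interval' h01 (by simp : (0:ℝ) ∈ uIcc 0 1)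
  rw [uIcc_of_le zero_le_one] at hc
  have := (hc 0 (by simp)).mono_left (nhdsWithin_mono 0 (show Ioo (0:ℝ) 1 ⊆ Icc 0 1 from
    Ioo_subset_Icc_self))
  rw [nhdsWithin_Ioo_eq_nhdsGT zero_lt_one] at this
  simpa using this

theorem tendsto_prim_one {f : ℝ → ℝ} (h : IntegrableOn f (Ioo 0 1)) :
    Tendsto (fun x => ∫ v in (0:ℝ)..x, f v) (𝓝[<] 1) (𝓝 (∫ v in Ioo 0 1, f v)) := by
  have h01 : IntervalIntegrable f volume 0 1 := intervalIntegrable_of h (by simp) (by simp)
  have hc := intervalIntegral.continuousOn_primitive_interval' h01 (by simp : (0:ℝ) ∈ uIcc 0 1)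
  rw [uIcc_of_le zero_le_one] at hc
  have := (hc 1 (by simp)).mono_left (nhdsWithin_mono 1 (show Ioo (0:ℝ) 1 ⊆ Icc 0 1 from
    Ioo_subset_Icc_self))
  rw [nhdsWithin_Ioo_eq_nhdsLT zero_lt_one] at this
  rw [← integral_Ioc_eq_integral_Ioo, ← intervalIntegral.integral_of_le zero_le_one]
  exact this

variable {g' : ℝ → ℝ} {m' : ℕ → ℝ}

/-- Chebyshev: the tilt by `e^{k g'}` against the tilt by `e^{k g}`, tested with an increasing
function of `g' - g`. -/
theorem cheb (hq : Quant w ψ g m) (hq' : Quant w ψ g' m') (k : ℕ) (hk : 0 < ψ k) (hk0 : k ≠ 0) :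
    0 ≤ ∫ u in Ioo 0 1, Real.arctan (g' u - g u) *
      (Real.exp (k * g' u) / m' k - Real.exp (k * g u) / m k) := by
  have hm := hq.mpos k hk
  have hm' := hq'.mpos k hk
  have hk' : (0:ℝ) < k := by exact_mod_cast Nat.pos_of_ne_zero hk0
  set h0 : ℝ := Real.log (m' k / m k) / k with hh0
  have hi : Integrable (fun u => Real.exp (k * g' u) / m' k - Real.exp (k * g u) / m k)
      (volume.restrict (Ioo 0 1)) := ((hq'.int k hk).div_const _).sub ((hq.int k hk).div_const _)
  have hzero : ∫ u in Ioo 0 1, (Real.exp (k * g' u) / m' k - Real.exp (k * g u) / m k) = 0 := by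
    rw [integral_sub ((hq'.int k hk).div_const _) ((hq.int k hk).div_const _), integral_div,
      integral_div, hq.mval k hk, hq'.mval k hk, div_self hm.ne', div_self hm'.ne', sub_self]
  have hmeas : AEStronglyMeasurable (fun u => Real.arctan (g' u - g u))
      (volume.restrict (Ioo 0 1)) :=
    (Real.continuous_arctan.comp_continuousOn (hq'.cont.sub hq.cont)).aestronglyMeasurable
      measurableSet_Ioo
  have hi2 : Integrable (fun u => Real.arctan (g' u - g u) *
      (Real.exp (k * g' u) / m' k - Real.exp (k * g u) / m k)) (volume.restrict (Ioo 0 1)) := by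
    apply hi.bdd_mul (c := Real.pi / 2) hmeas
    refine Eventually.of_forall fun u => ?_
    rw [Real.norm_eq_abs]
    exact abs_arctan_le _
  have key : ∫ u in Ioo 0 1, Real.arctan (g' u - g u) *
      (Real.exp (k * g' u) / m' k - Real.exp (k * g u) / m k) =
      ∫ u in Ioo 0 1, (Real.arctan (g' u - g u) - Real.arctan h0) *
      (Real.exp (k * g' u) / m' k - Real.exp (k * g u) / m k) := by
    have : ∀ u, (Real.arctan (g' u - g u) - Real.arctan h0) *
      (Real.exp (k * g' u) / m' k - Real.exp (k * g u) / m k) =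
      Real.arctan (g' u - g u) *
      (Real.exp (k * g' u) / m' k - Real.exp (k * g u) / m k) - Real.arctan h0 *
      (Real.exp (k * g' u) / m' k - Real.exp (k * g u) / m k) := by intro u; ring
    simp_rw [this]
    rw [integral_sub hi2 (hi.const_mul _), integral_const_mul, hzero, mul_zero, sub_zero]
  rw [key]
  apply integral_nonneg
  intro u
  simp only [Pi.zero_apply]
  have hexp0 : Real.exp (k * h0) = m' k / m k := by
    rw [hh0, mul_div_cancel₀ _ hk'.ne', Real.exp_log (div_pos hm' hm)]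
  have hfac : Real.exp (k * g' u) / m' k - Real.exp (k * g u) / m k =
      Real.exp (k * g u) / m' k * (Real.exp (k * (g' u - g u)) - Real.exp (k * h0)) := by
    rw [hexp0, mul_sub, mul_sub, Real.exp_sub]
    field_simp
  rw [hfac]
  have hp : 0 < Real.exp (k * g u) / m' k := by positivity
  rcases le_total h0 (g' u - g u) with h | h
  · have h1 : Real.arctan h0 ≤ Real.arctan (g' u - g u) := Real.arctan_strictMono.monotone h
    have h2 : Real.exp (k * h0) ≤ Real.exp (k * (g' u - g u)) := by gcongr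
    exact mul_nonneg (sub_nonneg.2 h1) (mul_nonneg hp.le (sub_nonneg.2 h2))
  · have h1 : Real.arctan (g' u - g u) ≤ Real.arctan h0 := Real.arctan_strictMono.monotone h
    have h2 : Real.exp (k * (g' u - g u)) ≤ Real.exp (k * h0) := by gcongr
    exact mul_nonneg_of_nonpos_of_nonpos (sub_nonpos.2 h1)
      (mul_nonpos_of_nonneg_of_nonpos hp.le (sub_nonpos.2 h2))

theorem test_nonneg (hq : Quant w ψ g m) (hq' : Quant w ψ g' m') (hψ : ∀ k, 0 ≤ ψ k)
    (hψ0 : ψ 0 = 0) (hs : HasSum ψ 1) :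
    0 ≤ ∫ u in Ioo 0 1, Real.arctan (g' u - g u) * (AA ψ g' m' u - AA ψ g m u) := by
  have hmeas : AEStronglyMeasurable (fun u => Real.arctan (g' u - g u))
      (volume.restrict (Ioo 0 1)) :=
    (Real.continuous_arctan.comp_continuousOn (hq'.cont.sub hq.cont)).aestronglyMeasurable
      measurableSet_Ioo
  set F : ℕ → ℝ → ℝ := fun k u => Real.arctan (g' u - g u) *
    (ψ k * (Real.exp (k * g' u) / m' k) - ψ k * (Real.exp (k * g u) / m k)) with hF
  have hFi : ∀ k, Integrable (F k) (volume.restrict (Ioo 0 1)) := by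
    intro k
    apply ((hq'.intk hψ k).sub (hq.intk hψ k)).bdd_mul (c := Real.pi / 2) hmeas
    refine Eventually.of_forall fun u => ?_
    rw [Real.norm_eq_abs]
    exact abs_arctan_le _
  have hsum : HasSum (fun k => ∫ u in Ioo 0 1, F k u) (∫ u in Ioo 0 1, ∑' k, F k u) := by
    apply hasSum_integral_of_summable_integral_norm hFi
    have hb : ∀ k, ∫ u in Ioo 0 1, ‖F k u‖ ≤ Real.pi / 2 * (ψ k + ψ k) := by
      intro k
      have : Real.pi / 2 * (ψ k + ψ k) = ∫ u in Ioo 0 1, Real.pi / 2 *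
          (ψ k * (Real.exp (k * g' u) / m' k) + ψ k * (Real.exp (k * g u) / m k)) := by
        rw [integral_const_mul, integral_add (hq'.intk hψ k) (hq.intk hψ k), hq.intkval hψ k,
          hq'.intkval hψ k]
      rw [this]
      apply integral_mono (hFi k).norm (((hq'.intk hψ k).add (hq.intk hψ k)).const_mul _)
      intro u
      simp only [hF, norm_mul, Pi.add_apply]
      apply mul_le_mul _ _ (norm_nonneg _) (by positivity)
      · rw [Real.norm_eq_abs]
        exact abs_arctan_le _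
      · refine (norm_sub_le _ _).trans ?_
        rw [Real.norm_eq_abs, Real.norm_eq_abs, abs_of_nonneg (hq.nonnegk hψ k u),
          abs_of_nonneg (hq'.nonnegk hψ k u)]
    refine Summable.of_nonneg_of_le (fun k => integral_nonneg fun u => norm_nonneg _) hb ?_
    exact (hs.summable.add hs.summable).mul_left _
  have heq : ∫ u in Ioo 0 1, Real.arctan (g' u - g u) * (AA ψ g' m' u - AA ψ g m u) =
      ∫ u in Ioo 0 1, ∑' k, F k u := by
    apply setIntegral_congr_fun measurableSet_Ioo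
    intro u hu
    simp only [hF, AA]
    rw [tsum_mul_left, (hq'.summ u hu).tsum_sub (hq.summ u hu)]
  rw [heq]
  refine hsum.nonneg fun k => ?_
  rcases (hψ k).lt_or_eq with h | h
  · have hk0 : k ≠ 0 := by rintro rfl; rw [hψ0] at h; exact lt_irrefl _ h
    have hc := cheb hq hq' k h hk0
    have : (fun u => F k u) = fun u => ψ k * (Real.arctan (g' u - g u) *
      (Real.exp (k * g' u) / m' k - Real.exp (k * g u) / m k)) := by
      funext u; simp only [hF]; ring
    rw [this, integral_const_mul]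
    exact mul_nonneg h.le hc
  · simp [hF, ← h]

theorem core (hw : 0 < w) (hq : Quant w ψ g m) (hq' : Quant w ψ g' m') (hψ : ∀ k, 0 ≤ ψ k)
    (hψ0 : ψ 0 = 0) (hs : HasSum ψ 1) : ∃ c, ∀ u ∈ Ioo (0:ℝ) 1, g' u = g u + c := by
  set D := DD ψ g m with hD
  set D' := DD ψ g' m' with hD'
  have hA := hq.integrableA hψ hs
  have hA' := hq'.integrableA hψ hs
  have hcA := hq.contA hψ
  have hcA' := hq'.contA hψ
  set f : ℝ → ℝ := fun u => Real.arctan (g' u - g u) * (AA ψ g' m' u - AA ψ g m u) with hf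
  have hmeas : AEStronglyMeasurable (fun u => Real.arctan (g' u - g u))
      (volume.restrict (Ioo 0 1)) :=
    (Real.continuous_arctan.comp_continuousOn (hq'.cont.sub hq.cont)).aestronglyMeasurable
      measurableSet_Ioo
  have hfi : IntegrableOn f (Ioo 0 1) := by
    apply (hA'.sub hA).bdd_mul (c := Real.pi / 2) hmeas
    refine Eventually.of_forall fun u => ?_
    rw [Real.norm_eq_abs]
    exact abs_arctan_le _
  have hfc : ContinuousOn f (Ioo 0 1) :=
    (Real.continuous_arctan.comp_continuousOn (hq'.cont.sub hq.cont)).mul (hcA'.sub hcA)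
  set Ψ : ℝ → ℝ := fun u => Real.arctan (g' u - g u) * (D u - D' u) - ∫ v in (0:ℝ)..u, f v
    with hΨ
  have hdD : ∀ u ∈ Ioo (0:ℝ) 1, HasDerivAt D (1 - AA ψ g m u) u := fun u hu =>
    (hasDerivAt_id u).sub (hasDerivAt_prim hA hcA hu)
  have hdD' : ∀ u ∈ Ioo (0:ℝ) 1, HasDerivAt D' (1 - AA ψ g' m' u) u := fun u hu =>
    (hasDerivAt_id u).sub (hasDerivAt_prim hA' hcA' hu)
  have hdΨ : ∀ u ∈ Ioo (0:ℝ) 1, HasDerivAt Ψ
      ((1 / (1 + (g' u - g u) ^ 2)) * ((D u - D' u) ^ 2 / (w * D u * D' u))) u := by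
    intro u hu
    have h1 := ((hq'.der u hu).sub (hq.der u hu)).arctan
    have h2 := (h1.mul ((hdD u hu).sub (hdD' u hu))).sub (hasDerivAt_prim hfi hfc hu)
    have e : Ψ = ((fun x => Real.arctan ((g' - g) x)) * (D - D') - fun x => ∫ v in (0:ℝ)..x, f v) := by
      funext x; simp [hΨ]
    rw [e]
    refine h2.congr_deriv ?_
    have hp := hq.dpos u hu
    have hp' := hq'.dpos u hu
    rw [← hD] at hp
    rw [← hD'] at hp'
    simp only [Pi.sub_apply, hf, ← hD, ← hD']
    field_simp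
    ring
  have hnn : ∀ u ∈ Ioo (0:ℝ) 1,
      0 ≤ (1 / (1 + (g' u - g u) ^ 2)) * ((D u - D' u) ^ 2 / (w * D u * D' u)) := by
    intro u hu
    have hp := hq.dpos u hu
    have hp' := hq'.dpos u hu
    positivity
  have hmono : MonotoneOn Ψ (Ioo 0 1) := by
    apply monotoneOn_of_deriv_nonneg (convex_Ioo 0 1)
    · exact fun u hu => (hdΨ u hu).continuousAt.continuousWithinAt
    · rw [interior_Ioo]
      exact fun u hu => (hdΨ u hu).differentiableAt.differentiableWithinAt
    · rw [interior_Ioo]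
      intro u hu
      rw [(hdΨ u hu).deriv]
      exact hnn u hu
  -- limits
  have hlimD0 : Tendsto (fun u => D u - D' u) (𝓝[>] 0) (𝓝 0) := by
    have h1 := (tendsto_prim_zero hA').sub (tendsto_prim_zero hA)
    rw [sub_zero] at h1
    refine h1.congr fun u => ?_
    simp only [hD, hD', DD]; ring
  have hlimD1 : Tendsto (fun u => D u - D' u) (𝓝[<] 1) (𝓝 0) := by
    have h1 := (tendsto_prim_one hA').sub (tendsto_prim_one hA)
    rw [hq.intA1 hψ hs, hq'.intA1 hψ hs, sub_self] at h1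
    refine h1.congr fun u => ?_
    simp only [hD, hD', DD]; ring
  have hbdd : ∀ l : Filter ℝ, Tendsto (fun u => D u - D' u) l (𝓝 0) →
      Tendsto (fun u => Real.arctan (g' u - g u) * (D u - D' u)) l (𝓝 0) := by
    intro l hl
    refine squeeze_zero_norm (a := fun u => Real.pi / 2 * ‖D u - D' u‖) (fun u => ?_) ?_
    · rw [norm_mul]
      gcongr
      rw [Real.norm_eq_abs]
      exact abs_arctan_le _
    · have := hl.norm.const_mul (Real.pi / 2)
      simpa using this
  have hΨ0 : Tendsto Ψ (𝓝[>] 0) (𝓝 0) := by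
    have := (hbdd _ hlimD0).sub (tendsto_prim_zero hfi)
    simpa [hΨ] using this
  have hΨ1 : Tendsto Ψ (𝓝[<] 1) (𝓝 (0 - ∫ v in Ioo 0 1, f v)) :=
    (hbdd _ hlimD1).sub (tendsto_prim_one hfi)
  have htest := test_nonneg hq hq' hψ hψ0 hs
  have hΨz : ∀ u ∈ Ioo (0:ℝ) 1, Ψ u = 0 := by
    intro u hu
    apply le_antisymm
    · have h1 : Ψ u ≤ 0 - ∫ v in Ioo 0 1, f v := by
        apply ge_of_tendsto hΨ1
        filter_upwards [Ioo_mem_nhdsLT hu.2] with v hv
        exact hmono hu ⟨hu.1.trans hv.1, hv.2⟩ hv.1.le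
      have h2 : 0 ≤ ∫ v in Ioo 0 1, f v := htest
      linarith
    · apply le_of_tendsto hΨ0
      filter_upwards [Ioo_mem_nhdsGT hu.1] with v hv
      exact hmono ⟨hv.1, hv.2.trans hu.2⟩ hu hv.2.le
  have hDeq : ∀ u ∈ Ioo (0:ℝ) 1, D u = D' u := by
    intro u hu
    have h1 : HasDerivAt Ψ 0 u := by
      have : Ψ =ᶠ[𝓝 u] fun _ => (0:ℝ) := by
        filter_upwards [isOpen_Ioo.mem_nhds hu] with v hv using hΨz v hv
      exact (hasDerivAt_const u (0:ℝ)).congr_of_eventuallyEq this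
    have h2 := (hdΨ u hu).unique h1
    have hp := hq.dpos u hu
    have hp' := hq'.dpos u hu
    rw [← hD] at hp
    rw [← hD'] at hp'
    have h3 : (1 / (1 + (g' u - g u) ^ 2)) ≠ 0 := by positivity
    have h4 : (D u - D' u) ^ 2 / (w * D u * D' u) = 0 := by
      rcases mul_eq_zero.1 h2 with h | h
      · exact absurd h h3
      · exact h
    rw [div_eq_zero_iff] at h4
    rcases h4 with h4 | h4
    · have := pow_eq_zero_iff (two_ne_zero) |>.1 h4
      linarith
    · exact absurd h4 (by positivity)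
  have hder0 : ∀ u ∈ Ioo (0:ℝ) 1, HasDerivAt (fun x => g' x - g x) 0 u := by
    intro u hu
    have h1 := (hq'.der u hu).sub (hq.der u hu)
    have e : (fun x => g' x - g x) = g' - g := rfl
    rw [e]
    refine h1.congr_deriv ?_
    rw [← hD, ← hD', hDeq u hu, sub_self]
  refine ⟨g' (1/2) - g (1/2), fun u hu => ?_⟩
  have hconst : (fun x => g' x - g x) u = (fun x => g' x - g x) (1/2) := by
    apply (convex_Ioo (0:ℝ) 1).is_const_of_fderivWithin_eq_zero (𝕜 := ℝ) (f := fun x => g' x - g x)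
    · exact fun x hx => (hder0 x hx).differentiableAt.differentiableWithinAt
    · intro x hx
      rw [fderivWithin_of_isOpen isOpen_Ioo hx]
      have := (hder0 x hx).hasFDerivAt.fderiv
      rw [this]
      ext
      simp
    · exact hu
    · constructor <;> norm_num
  simp only at hconst
  linarith

end Pool.Agent.V1185.PB
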